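import Mathlib

set_option autoImplicit false

/-!
# Permutation wordle: the cyclic shift maximises the cubic coefficient

For every deranged strategy `S` of length `n`, the number of secret permutations of `{1, ..., n}`
found in exactly three guesses by `S` is at most the number found in exactly three guesses by
the cyclic shift strategy.
-/

namespace Pool.Agent.Results.MP_433145_co.CubicCoefficient

open Finset

/-- A strategy assigns to every `k` a permutation `S[k]` of `k` positions (in a game of length
`n` only the values `k ≤ n` are used). -/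
abbrev Strategy := (k : ℕ) → Equiv.Perm (Fin k)

/-- `S` is deranged (as a strategy of length `n`): `S[k]` has no fixed point for `2 ≤ k ≤ n`. -/
def Deranged (n : ℕ) (S : Strategy) : Prop :=
  ∀ k, 2 ≤ k → k ≤ n → ∀ j : Fin k, S k j ≠ j

/-- The cyclic shift strategy: `CS[k] = [2, 3, ..., k, 1]`. -/
def CS : Strategy := fun k => finRotate k

variable {n : ℕ}

/-- If `I = {i_1 < ... < i_k}`, then `move S I` sends `i_j` to `i_{S[k](j)}` and fixes the other
positions. -/
def move (S : Strategy) (I : Finset (Fin n)) : Equiv.Perm (Fin n) :=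
  Equiv.Perm.ofSubtype ((I.orderIsoOfFin rfl).toEquiv.permCongr (S I.card))

/-- The set of incorrect positions of the guess `γ` for the secret permutation `π`. -/
def wrong (γ π : Equiv.Perm (Fin n)) : Finset (Fin n) := univ.filter (fun i => γ i ≠ π i)

/-- The guesses (`guess S π r` is the guess with number `r + 1`).  The first guess is the
identity; with `I` the set of incorrect positions of a guess `γ`, the next guess `γ'` satisfies
`γ' (move S I x) = γ x` for all positions `x`. -/
def guess (S : Strategy) (π : Equiv.Perm (Fin n)) : ℕ → Equiv.Perm (Fin n)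
  | 0 => 1
  | r + 1 => guess S π r * (move S (wrong (guess S π r) π))⁻¹

/-- `number n S r`: the number of secret permutations `π` of `n` elements for which the game
using `S` ends after exactly `r + 1` guesses. -/
def number (n : ℕ) (S : Strategy) (r : ℕ) : ℕ :=
  (univ.filter (fun π : Equiv.Perm (Fin n) =>
    guess S π r = π ∧ ∀ s < r, guess S π s ≠ π)).card

lemma app_inv (σ : Equiv.Perm (Fin n)) (x : Fin n) : σ (σ⁻¹ x) = x := by simp

lemma inv_app (σ : Equiv.Perm (Fin n)) (x : Fin n) : σ⁻¹ (σ x) = x := by simp

lemma move_notMem (S : Strategy) (I : Finset (Fin n)) {x : Fin n} (hx : x ∉ I) :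
    move S I x = x := Equiv.Perm.ofSubtype_apply_of_not_mem _ hx

lemma move_apply (S : Strategy) (I : Finset (Fin n)) (j : Fin I.card) :
    move S I (I.orderIsoOfFin rfl j) = I.orderIsoOfFin rfl (S I.card j) := by
  unfold move
  rw [Equiv.Perm.ofSubtype_apply_coe]
  simp [Equiv.permCongr_apply]

lemma exists_index (I : Finset (Fin n)) {x : Fin n} (hx : x ∈ I) :
    ∃ j : Fin I.card, ((I.orderIsoOfFin rfl j : I) : Fin n) = x :=
  ⟨(I.orderIsoOfFin rfl).symm ⟨x, hx⟩, by simp⟩

lemma move_mem (S : Strategy) (I : Finset (Fin n)) {x : Fin n} (hx : x ∈ I) :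
    move S I x ∈ I := by
  obtain ⟨j, rfl⟩ := exists_index I hx
  rw [move_apply]
  exact (I.orderIsoOfFin rfl _).2

lemma move_ne {S : Strategy} (hS : Deranged n S) (I : Finset (Fin n)) (hI : 2 ≤ I.card)
    {x : Fin n} (hx : x ∈ I) : move S I x ≠ x := by
  obtain ⟨j, rfl⟩ := exists_index I hx
  rw [move_apply]
  intro h
  have h1 : S I.card j = j := by
    apply (I.orderIsoOfFin rfl).injective
    exact Subtype.ext h
  have h2 : I.card ≤ n := by
    have := card_le_univ I
    rwa [Fintype.card_fin] at this
  exact hS _ hI h2 j h1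

lemma move_inv_mem (S : Strategy) (I : Finset (Fin n)) {x : Fin n} (hx : x ∈ I) :
    (move S I)⁻¹ x ∈ I := by
  by_contra h
  have h1 := move_notMem S I h
  rw [app_inv] at h1
  exact h (h1 ▸ hx)

lemma move_inv_notMem (S : Strategy) (I : Finset (Fin n)) {x : Fin n} (hx : x ∉ I) :
    (move S I)⁻¹ x = x := by
  rw [Equiv.Perm.inv_eq_iff_eq]
  exact (move_notMem S I hx).symm

/-- The pairs `(I', I)` which correspond to the permutations found in exactly three guesses. -/
def good (S : Strategy) (I : Finset (Fin n)) : Finset (Finset (Fin n)) :=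
  I.powerset.filter (fun I' => 2 ≤ I'.card ∧ ∀ i ∈ I', move S I (move S I' i) ≠ i)

/-- the other subsets -/
def bad (S : Strategy) (I : Finset (Fin n)) : Finset (Finset (Fin n)) :=
  I.powerset.filter (fun I' => 2 ≤ I'.card ∧ ∃ i ∈ I', move S I (move S I' i) = i)

lemma good_add_bad (S : Strategy) (I : Finset (Fin n)) :
    (good S I).card + (bad S I).card = (I.powerset.filter (fun I' => 2 ≤ I'.card)).card := by
  have h1 : good S I = (I.powerset.filter (fun I' => 2 ≤ I'.card)).filter
      (fun I' => ∀ i ∈ I', move S I (move S I' i) ≠ i) := by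
    unfold good
    rw [filter_filter]
  have h2 : bad S I = (I.powerset.filter (fun I' => 2 ≤ I'.card)).filter
      (fun I' => ¬ ∀ i ∈ I', move S I (move S I' i) ≠ i) := by
    unfold bad
    rw [filter_filter]
    congr 1
    ext I'
    push Not
    rfl
  rw [h1, h2]
  exact card_filter_add_card_filter_not _

lemma number_le (S : Strategy) :
    number n S 2 ≤ ∑ I : Finset (Fin n), (good S I).card := by
  rw [← card_sigma]
  unfold number
  apply card_le_card_of_injOn (fun π => ⟨wrong (guess S π 0) π, wrong (guess S π 1) π⟩)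
  · intro π hπ
    rw [mem_coe, mem_filter] at hπ
    obtain ⟨-, h2, h3⟩ := hπ
    have h0 := h3 0 (by norm_num)
    have h1 := h3 1 (by norm_num)
    rw [mem_coe, mem_sigma]
    refine ⟨mem_univ _, ?_⟩
    obtain ⟨I, hI⟩ : ∃ I, I = wrong (guess S π 0) π := ⟨_, rfl⟩
    obtain ⟨I', hI'⟩ : ∃ I', I' = wrong (guess S π 1) π := ⟨_, rfl⟩
    have hg1 : guess S π 1 = (move S I)⁻¹ := by
      rw [hI]
      show guess S π 0 * _ = _
      show 1 * _ = _
      rw [one_mul]
    have hg2 : π = (move S I)⁻¹ * (move S I')⁻¹ := by
      rw [← hg1, hI']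
      exact h2.symm
    show wrong (guess S π 1) π ∈ good S (wrong (guess S π 0) π)
    rw [← hI, ← hI']
    unfold good
    rw [mem_filter, mem_powerset]
    have hsub : I' ⊆ I := by
      intro x hx
      by_contra hxI
      have h4 : π x = x := by
        rw [hI] at hxI
        unfold wrong at hxI
        simp only [mem_filter, mem_univ, true_and, not_not] at hxI
        exact hxI.symm
      rw [hI'] at hx
      unfold wrong at hx
      simp only [mem_filter, mem_univ, true_and] at hx
      apply hx
      rw [hg1, move_inv_notMem S I hxI, h4]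
    refine ⟨hsub, ?_, ?_⟩
    · by_contra hlt
      apply h1
      -- at most one wrong position: no wrong position at all
      ext x
      by_contra hx
      have hx' : guess S π 1 x ≠ π x := fun h => hx (by rw [h])
      have hxI : x ∈ I' := by
        rw [hI']; unfold wrong; rw [mem_filter]; exact ⟨mem_univ _, hx'⟩
      obtain ⟨y, hy⟩ : ∃ y, y = π⁻¹ (guess S π 1 x) := ⟨_, rfl⟩
      have hy1 : π y = guess S π 1 x := by rw [hy]; simp
      have hyx : y ≠ x := by
        intro h
        rw [h] at hy1
        exact hx' hy1.symm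
      have hyI : y ∈ I' := by
        rw [hI']; unfold wrong; rw [mem_filter]
        refine ⟨mem_univ _, ?_⟩
        rw [hy1]
        intro h
        exact hyx ((guess S π 1).injective h)
      have : 1 < I'.card := one_lt_card.2 ⟨x, hxI, y, hyI, hyx.symm⟩
      omega
    · intro i hi h
      have hj : move S I' i ∈ I := hsub (move_mem S I' hi)
      have h5 : π (move S I' i) = move S I' i := by
        conv_lhs => rw [hg2]
        rw [Equiv.Perm.mul_apply, inv_app, Equiv.Perm.inv_eq_iff_eq]
        exact h.symm
      rw [hI] at hj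
      unfold wrong at hj
      simp only [mem_filter, mem_univ, true_and] at hj
      exact hj h5.symm
  · intro π hπ π' hπ' h
    rw [mem_coe, mem_filter] at hπ hπ'
    obtain ⟨h1, h2⟩ := Sigma.mk.inj_iff.1 h
    have h2' := eq_of_heq h2
    have e : ∀ ρ : Equiv.Perm (Fin n), guess S ρ 2 = ρ →
        ρ = (move S (wrong (guess S ρ 0) ρ))⁻¹ * (move S (wrong (guess S ρ 1) ρ))⁻¹ := by
      intro ρ hρ
      conv_lhs => rw [← hρ]
      show guess S ρ 1 * _ = _
      have : guess S ρ 1 = (move S (wrong (guess S ρ 0) ρ))⁻¹ := by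
        show guess S ρ 0 * _ = _
        show 1 * _ = _
        rw [one_mul]
      rw [this]
    rw [e π hπ.2.1, e π' hπ'.2.1, h1, h2']

lemma le_number {S : Strategy} (hS : Deranged n S) :
    ∑ I : Finset (Fin n), (good S I).card ≤ number n S 2 := by
  rw [← card_sigma]
  unfold number
  have key : ∀ I I' : Finset (Fin n), I' ∈ good S I →
      wrong 1 ((move S I)⁻¹ * (move S I')⁻¹) = I ∧
      wrong (move S I)⁻¹ ((move S I)⁻¹ * (move S I')⁻¹) = I' ∧ I.Nonempty ∧ I'.Nonempty := by
    intro I I' h
    unfold good at h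
    rw [mem_filter, mem_powerset] at h
    obtain ⟨hsub, hcard, hg⟩ := h
    have hIc : 2 ≤ I.card := hcard.trans (card_le_card hsub)
    refine ⟨?_, ?_, card_pos.1 (by omega), card_pos.1 (by omega)⟩
    · ext x
      unfold wrong
      simp only [mem_filter, mem_univ, true_and, Equiv.Perm.one_apply, Equiv.Perm.mul_apply]
      constructor
      · intro hx
        by_contra hxI
        apply hx
        rw [move_inv_notMem S I' (fun h => hxI (hsub h)), move_inv_notMem S I hxI]
      · intro hxI hx
        by_cases hx' : x ∈ I'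
        · have h1 := hg ((move S I')⁻¹ x) (move_inv_mem S I' hx')
          apply h1
          rw [app_inv]
          conv_lhs => rw [hx]
          rw [app_inv]
        · rw [move_inv_notMem S I' hx'] at hx
          have h2 : move S I x = x := by
            conv_lhs => rw [hx]
            rw [app_inv]
          exact move_ne hS I hIc hxI h2
    · ext x
      unfold wrong
      simp only [mem_filter, mem_univ, true_and, Equiv.Perm.mul_apply]
      constructor
      · intro hx
        by_contra hx'
        apply hx
        rw [move_inv_notMem S I' hx']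
      · intro hx' hx
        have h1 := (move S I)⁻¹.injective hx
        have h2 : move S I' x = x := by
          conv_lhs => rw [h1]
          rw [app_inv]
        exact move_ne hS I' hcard hx' h2
  apply card_le_card_of_injOn (fun p => (move S p.1)⁻¹ * (move S p.2)⁻¹)
  · rintro ⟨I, I'⟩ hp
    rw [mem_coe, mem_sigma] at hp
    obtain ⟨k1, k2, k3, k4⟩ := key I I' hp.2
    rw [mem_coe, mem_filter]
    obtain ⟨π, hπ⟩ : ∃ π, π = (move S I)⁻¹ * (move S I')⁻¹ := ⟨_, rfl⟩
    show (_ : Equiv.Perm (Fin n)) ∈ _ ∧ _
    rw [← hπ] at k1 k2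
    show (move S I)⁻¹ * (move S I')⁻¹ ∈ _ ∧ guess S ((move S I)⁻¹ * (move S I')⁻¹) 2 =
      (move S I)⁻¹ * (move S I')⁻¹ ∧ ∀ s < 2, guess S ((move S I)⁻¹ * (move S I')⁻¹) s ≠
      (move S I)⁻¹ * (move S I')⁻¹
    rw [← hπ]
    have g0 : guess S π 0 = 1 := rfl
    have g1 : guess S π 1 = (move S I)⁻¹ := by
      show guess S π 0 * (move S (wrong (guess S π 0) π))⁻¹ = _
      rw [g0, k1, one_mul]
    have g2 : guess S π 2 = π := by
      show guess S π 1 * (move S (wrong (guess S π 1) π))⁻¹ = _
      rw [g1, k2, hπ]
    refine ⟨mem_univ _, g2, ?_⟩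
    intro s hs
    have hs' : s = 0 ∨ s = 1 := by omega
    rcases hs' with rfl | rfl
    · rw [g0]
      intro h
      obtain ⟨x, hx⟩ := k3
      rw [← k1] at hx
      unfold wrong at hx
      rw [mem_filter] at hx
      exact hx.2 (by rw [h])
    · rw [g1]
      intro h
      obtain ⟨x, hx⟩ := k4
      rw [← k2] at hx
      unfold wrong at hx
      rw [mem_filter] at hx
      exact hx.2 (by rw [h])
  · rintro ⟨I, I'⟩ hp ⟨J, J'⟩ hq h
    rw [mem_coe, mem_sigma] at hp hq
    obtain ⟨k1, k2, -, -⟩ := key I I' hp.2
    obtain ⟨l1, l2, -, -⟩ := key J J' hq.2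
    have h' : (move S I)⁻¹ * (move S I')⁻¹ = (move S J)⁻¹ * (move S J')⁻¹ := h
    have hIJ : I = J := by rw [← k1, ← l1, h']
    subst hIJ
    have hIJ' : I' = J' := by rw [← k2, ← l2, h']
    subst hIJ'
    rfl

/-! ### Lower bound for the number of bad subsets of a deranged strategy -/

lemma pair_bad {S : Strategy} (hS : Deranged n S) (I : Finset (Fin n)) (hI : 2 ≤ I.card)
    {s : Fin n} (hs : s ∈ I) : {s, move S I s} ∈ bad S I := by
  have hne := move_ne hS I hI hs
  obtain ⟨t, ht⟩ : ∃ t, t = move S I s := ⟨_, rfl⟩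
  rw [← ht] at hne ⊢
  have htI : t ∈ I := by rw [ht]; exact move_mem S I hs
  have hc : ({s, t} : Finset (Fin n)).card = 2 := card_pair hne.symm
  unfold bad
  rw [mem_filter, mem_powerset]
  refine ⟨?_, hc.ge, t, by simp, ?_⟩
  · intro x hx
    rw [mem_insert, mem_singleton] at hx
    rcases hx with rfl | rfl
    · exact hs
    · exact htI
  · have h1 : move S {s, t} t = s := by
      have h2 := move_mem S {s, t} (x := t) (by simp)
      have h3 := move_ne hS {s, t} hc.ge (x := t) (by simp)
      rw [mem_insert, mem_singleton] at h2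
      rcases h2 with h2 | h2
      · exact h2
      · exact absurd h2 h3
    rw [h1]
    exact ht.symm

lemma triple_bad {S : Strategy} (hS : Deranged n S) (I : Finset (Fin n)) (hI : 2 ≤ I.card)
    {a z : Fin n} (ha : a ∈ I) (haa : move S I (move S I a) = a) (hz : z ∈ I) (hza : z ≠ a)
    (hzb : z ≠ move S I a) : {a, move S I a, z} ∈ bad S I := by
  have hne := move_ne hS I hI ha
  obtain ⟨b, hb⟩ : ∃ b, b = move S I a := ⟨_, rfl⟩
  rw [← hb] at hne haa hzb ⊢
  have hbI : b ∈ I := by rw [hb]; exact move_mem S I ha
  have hc : ({a, b, z} : Finset (Fin n)).card = 3 :=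
    card_eq_three.2 ⟨a, b, z, hne.symm, hza.symm, hzb.symm, rfl⟩
  have hc2 : 2 ≤ ({a, b, z} : Finset (Fin n)).card := by omega
  unfold bad
  rw [mem_filter, mem_powerset]
  refine ⟨?_, hc2, ?_⟩
  · intro x hx
    rw [mem_insert, mem_insert, mem_singleton] at hx
    rcases hx with rfl | rfl | rfl
    · exact ha
    · exact hbI
    · exact hz
  · have m1 := move_mem S {a, b, z} (x := a) (by simp)
    have n1 := move_ne hS {a, b, z} hc2 (x := a) (by simp)
    rw [mem_insert, mem_insert, mem_singleton] at m1
    by_cases h : move S {a, b, z} a = b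
    · exact ⟨a, by simp, by rw [h]; exact haa⟩
    · have h1 : move S {a, b, z} a = z := by
        rcases m1 with m1 | m1 | m1
        · exact absurd m1 n1
        · exact absurd m1 h
        · exact m1
      have m2 := move_mem S {a, b, z} (x := b) (by simp)
      have n2 := move_ne hS {a, b, z} hc2 (x := b) (by simp)
      rw [mem_insert, mem_insert, mem_singleton] at m2
      have h2 : move S {a, b, z} b = a := by
        rcases m2 with m2 | m2 | m2
        · exact m2
        · exact absurd m2 n2
        · exfalso
          have := (move S {a, b, z}).injective (m2.trans h1.symm)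
          exact hne this
      exact ⟨b, by simp, by rw [h2]; exact hb.symm⟩

lemma card_le_bad {S : Strategy} (hS : Deranged n S) (I : Finset (Fin n)) (hI : 3 ≤ I.card) :
    I.card ≤ (bad S I).card := by
  have hI2 : 2 ≤ I.card := by omega
  obtain ⟨τ, hτ⟩ : ∃ τ, τ = move S I := ⟨_, rfl⟩
  have hz : ∀ s : Fin n, ∃ z, z ∈ I ∧ z ≠ s ∧ z ≠ τ s := by
    intro s
    have h1 : ({s, τ s} : Finset (Fin n)).card < I.card :=
      lt_of_le_of_lt card_le_two (by omega)
    obtain ⟨z, hz, hz'⟩ := exists_mem_notMem_of_card_lt_card h1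
    rw [mem_insert, mem_singleton, not_or] at hz'
    exact ⟨z, hz, hz'.1, hz'.2⟩
  choose z hzI hzs hzt using hz
  have hne : ∀ s ∈ I, τ s ≠ s := by
    intro s hs
    rw [hτ]
    exact move_ne hS I hI2 hs
  apply card_le_card_of_injOn
    (fun s => if τ (τ s) = s ∧ τ s < s then {s, τ s, z s} else {s, τ s})
  · intro s hs
    rw [mem_coe] at hs ⊢
    show (if τ (τ s) = s ∧ τ s < s then ({s, τ s, z s} : Finset (Fin n)) else {s, τ s}) ∈ _
    split_ifs with h
    · have := triple_bad hS I hI2 hs (z := z s) (by rw [← hτ]; exact h.1) (hzI s) (hzs s)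
        (by rw [← hτ]; exact hzt s)
      rw [← hτ] at this
      exact this
    · have := pair_bad hS I hI2 hs
      rw [← hτ] at this
      exact this
  · intro s hs t ht hst
    rw [mem_coe] at hs ht
    have hst' : (if τ (τ s) = s ∧ τ s < s then ({s, τ s, z s} : Finset (Fin n)) else {s, τ s}) =
      (if τ (τ t) = t ∧ τ t < t then ({t, τ t, z t} : Finset (Fin n)) else {t, τ t}) := hst
    have hc2 : ∀ x ∈ I, ({x, τ x} : Finset (Fin n)).card = 2 := fun x hx =>
      card_pair (hne x hx).symm
    have hc3 : ∀ x ∈ I, ({x, τ x, z x} : Finset (Fin n)).card = 3 := fun x hx =>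
      card_eq_three.2 ⟨x, τ x, z x, (hne x hx).symm, (hzs x).symm, (hzt x).symm, rfl⟩
    by_contra hne'
    by_cases c1 : τ (τ s) = s ∧ τ s < s
    · rw [if_pos c1] at hst'
      by_cases c2 : τ (τ t) = t ∧ τ t < t
      · rw [if_pos c2] at hst'
        have m1 : s ∈ ({t, τ t, z t} : Finset (Fin n)) := by rw [← hst']; simp
        have m2 : τ s ∈ ({t, τ t, z t} : Finset (Fin n)) := by rw [← hst']; simp
        rw [mem_insert, mem_insert, mem_singleton] at m1 m2
        rcases m1 with m1 | m1 | m1
        · exact hne' m1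
        · have h5 : τ s = t := by rw [m1, c2.1]
          have h6 := c1.2
          have h7 := c2.2
          rw [h5] at h6
          rw [← m1] at h7
          exact absurd h6 (not_lt.2 h7.le)
        · rcases m2 with m2 | m2 | m2
          · have : s = τ t := by rw [← c1.1, m2]
            exact hzt t (m1 ▸ this)
          · exact hne' (τ.injective m2)
          · exact hne s hs (m2.trans m1.symm)
      · rw [if_neg c2] at hst'
        have h5 := hc3 s hs
        rw [hst', hc2 t ht] at h5
        omega
    · rw [if_neg c1] at hst'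
      by_cases c2 : τ (τ t) = t ∧ τ t < t
      · rw [if_pos c2] at hst'
        have h5 := hc2 s hs
        rw [hst', hc3 t ht] at h5
        omega
      · rw [if_neg c2] at hst'
        have m1 : s ∈ ({t, τ t} : Finset (Fin n)) := by rw [← hst']; simp
        have m2 : τ s ∈ ({t, τ t} : Finset (Fin n)) := by rw [← hst']; simp
        rw [mem_insert, mem_singleton] at m1 m2
        rcases m1 with m1 | m1
        · exact hne' m1
        · rcases m2 with m2 | m2
          · have e1 : τ (τ s) = s := by rw [m2]; exact m1.symm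
            have e2 : τ (τ t) = t := by rw [← m1]; exact m2
            have f1 : ¬ τ s < s := fun h => c1 ⟨e1, h⟩
            have f2 : ¬ τ t < t := fun h => c2 ⟨e2, h⟩
            rw [m2] at f1
            rw [← m1] at f2
            push Not at f1 f2
            exact hne' (le_antisymm f1 f2)
          · exact hne' (τ.injective m2)

/-! ### Upper bound for the number of bad subsets of the cyclic shift -/

lemma cs_deranged : Deranged n CS := by
  intro k hk _ j hj
  obtain ⟨m, rfl⟩ : ∃ m, k = m + 2 := ⟨k - 2, by omega⟩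
  unfold CS at hj
  rw [finRotate_apply] at hj
  have h1 : (1 : Fin (m + 2)) = 0 := by
    have := congrArg (fun x => x - j) hj
    simp at this
  exact absurd h1 (by simp)

lemma cs_succ (I : Finset (Fin n)) {x y : Fin n} (hx : x ∈ I) (hy : y ∈ I) :
    (x < move CS I x ∧ (y ≤ x ∨ move CS I x ≤ y)) ∨ (move CS I x ≤ y ∧ y ≤ x) := by
  obtain ⟨j, rfl⟩ := exists_index I hx
  obtain ⟨l, rfl⟩ := exists_index I hy
  rw [move_apply]
  have hle : ∀ a b : Fin I.card, ((I.orderIsoOfFin rfl a : I) : Fin n) ≤
      ((I.orderIsoOfFin rfl b : I) : Fin n) ↔ a ≤ b := by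
    intro a b
    rw [Subtype.coe_le_coe]
    exact (I.orderIsoOfFin rfl).le_iff_le
  have hlt : ∀ a b : Fin I.card, ((I.orderIsoOfFin rfl a : I) : Fin n) <
      ((I.orderIsoOfFin rfl b : I) : Fin n) ↔ a < b := by
    intro a b
    rw [Subtype.coe_lt_coe]
    exact (I.orderIsoOfFin rfl).lt_iff_lt
  simp only [hle, hlt]
  have key : ∀ (k : ℕ) (j l : Fin k), (j < finRotate k j ∧ (l ≤ j ∨ finRotate k j ≤ l)) ∨
      (finRotate k j ≤ l ∧ l ≤ j) := by
    intro k j l
    obtain ⟨m, rfl⟩ : ∃ m, k = m + 1 := ⟨k - 1, by have := j.2; omega⟩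
    by_cases hj : j.val < m
    · left
      have h1 : finRotate (m + 1) j = ⟨j.val + 1, by omega⟩ := by
        have := finRotate_of_lt hj
        simpa using this
      rw [h1]
      constructor
      · rw [Fin.lt_def]; exact Nat.lt_succ_self _
      · rw [Fin.le_def, Fin.le_def]
        show l.val ≤ j.val ∨ j.val + 1 ≤ l.val
        omega
    · right
      have h2 : j = Fin.last m := by
        apply Fin.ext
        have := j.2
        rw [Fin.val_last]
        omega
      rw [h2, finRotate_last]
      exact ⟨Fin.zero_le _, Fin.le_last _⟩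
  exact key _ j l

lemma cs_bad_sub (I : Finset (Fin n)) : bad CS I ⊆ I.image (fun s => {s, move CS I s}) := by
  intro I' hI'
  unfold bad at hI'
  rw [mem_filter, mem_powerset] at hI'
  obtain ⟨hsub, hcard, i, hi, h⟩ := hI'
  obtain ⟨s, hs⟩ : ∃ s, s = move CS I' i := ⟨_, rfl⟩
  have hsI' : s ∈ I' := by rw [hs]; exact move_mem CS I' hi
  have hne : s ≠ i := by rw [hs]; exact move_ne cs_deranged I' hcard hi
  rw [← hs] at h
  have hall : ∀ y ∈ I', y = i ∨ y = s := by
    intro y hy
    have c1 := cs_succ I' hi hy
    have c2 := cs_succ I (hsub hsI') (hsub hy)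
    rw [← hs] at c1
    rw [h] at c2
    rcases c1 with ⟨a1, a2⟩ | ⟨a1, a2⟩
    · rcases c2 with ⟨b1, b2⟩ | ⟨b1, b2⟩
      · exact absurd a1 (not_lt.2 b1.le)
      · rcases a2 with a2 | a2
        · exact Or.inl (le_antisymm a2 b1)
        · exact Or.inr (le_antisymm b2 a2)
    · rcases c2 with ⟨b1, b2⟩ | ⟨b1, b2⟩
      · rcases b2 with b2 | b2
        · exact Or.inr (le_antisymm b2 a1)
        · exact Or.inl (le_antisymm a2 b2)
      · exact Or.inl (le_antisymm a2 b1)
  rw [mem_image]
  refine ⟨s, hsub hsI', ?_⟩
  rw [h]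
  ext y
  rw [mem_insert, mem_singleton]
  constructor
  · rintro (rfl | rfl)
    · exact hsI'
    · exact hi
  · intro hy
    exact (hall y hy).symm

lemma good_le {S : Strategy} (hS : Deranged n S) (I : Finset (Fin n)) :
    (good S I).card ≤ (good CS I).card := by
  have h1 := good_add_bad S I
  have h2 := good_add_bad CS I
  have h3 : (bad CS I).card ≤ I.card := (card_le_card (cs_bad_sub I)).trans card_image_le
  by_cases hI3 : 3 ≤ I.card
  · have h4 := card_le_bad hS I hI3
    omega
  have hfull : ∀ I' ∈ bad CS I, I' = I ∧ 2 ≤ I.card := by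
    intro I' h
    unfold bad at h
    rw [mem_filter, mem_powerset] at h
    have h5 := card_le_card h.1
    have h6 := h.2.1
    exact ⟨eq_of_subset_of_card_le h.1 (by omega), by omega⟩
  by_cases hI2 : 2 ≤ I.card
  · have h4 : (bad CS I).card ≤ 1 := by
      rw [card_le_one]
      intro a ha b hb
      rw [(hfull a ha).1, (hfull b hb).1]
    have h5 : 1 ≤ (bad S I).card := by
      obtain ⟨s, hs⟩ : I.Nonempty := card_pos.1 (by omega)
      exact card_pos.2 ⟨_, pair_bad hS I hI2 hs⟩
    omega
  · have h4 : bad CS I = ∅ := by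
      rw [eq_empty_iff_forall_notMem]
      intro I' h
      exact hI2 (hfull I' h).2
    rw [h4, card_empty] at h2
    omega

/-- **Theorem.**  For every `n` and every deranged strategy `S` of length `n`, the number of
secret permutations found by `S` in exactly three guesses is at most the number of secret
permutations found by the cyclic shift strategy in exactly three guesses. -/
theorem result (n : ℕ) (S : Strategy) (hS : Deranged n S) : number n S 2 ≤ number n CS 2 :=
  calc number n S 2 ≤ ∑ I : Finset (Fin n), (good S I).card := number_le S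
    _ ≤ ∑ I : Finset (Fin n), (good CS I).card := sum_le_sum (fun I _ => good_le hS I)
    _ ≤ number n CS 2 := le_number cs_deranged

end Pool.Agent.Results.MP_433145_co.CubicCoefficient
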